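import Pool.Agent.Helper29.UG.Props

/-!
# AbRep of project UG
-/

open scoped ENNReal NNReal InnerProductSpace ComplexOrder
open Filter Topology

attribute [-instance] CStarMatrix.instAlgebra CStarMatrix.instModule CStarMatrix.instSMul
  CStarMatrix.instMulAction CStarMatrix.instDistribMulAction

noncomputable section
namespace RC
universe u

theorem abRep_h34 (hA : AbSysP.{u}) (hC : CharP.{u}) : AbRepP.{u} := by
  intro H _ _ _ S ξ hF f hf hfp hf0 hab
  obtain ⟨r, v, z, hv, hz, hfz, hvv, hsum⟩ := hA H S ξ hF f hf hfp hf0 hab
  obtain ⟨hzN, hzp, hzc⟩ := hz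
  have mulN : ∀ x ∈ S.centralizer, ∀ y ∈ S.centralizer, x * y ∈ S.centralizer :=
    fun x hx y hy => Set.mul_mem_centralizer hx hy
  have starN : ∀ x ∈ S.centralizer, star x ∈ S.centralizer :=
    fun x hx => Set.star_mem_centralizer' hF.star hx
  have oneN : (1 : H →L[ℂ] H) ∈ S.centralizer := Set.one_mem_centralizer
  have hff : f * f = f := hfp.isIdempotentElem
  have hfs : star f = f := hfp.isSelfAdjoint
  have hzz : z * z = z := hzp.isIdempotentElem
  have hzs : star z = z := hzp.isSelfAdjoint
  have hzf : z * f = f * z := hzc f hf
  have hfN : f * z ∈ S.centralizer := mulN f hf z hzN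
  have hfzp : IsStarProjection (f * z) := by
    constructor
    · change f * z * (f * z) = f * z
      rw [mul_assoc, ← mul_assoc z f z, hzf, mul_assoc f z z, hzz, ← mul_assoc, hff]
    · change star (f * z) = f * z
      rw [star_mul, hfs, hzs, hzf]
  have habz : ∀ x ∈ S.centralizer, ∀ y ∈ S.centralizer,
      f * z * x * (f * z) * y * (f * z) = f * z * y * (f * z) * x * (f * z) := by
    intro x hx y hy
    have key : ∀ x ∈ S.centralizer, ∀ y ∈ S.centralizer,
        f * z * x * (f * z) * y * (f * z) = f * x * f * y * f * z := by
      intro x hx y hy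
      have e1 : f * z * x * (f * z) = f * x * f * z := by
        calc f * z * x * (f * z) = f * (z * (x * f)) * z := by simp only [mul_assoc]
          _ = f * ((x * f) * z) * z := by rw [hzc (x * f) (mulN x hx f hf)]
          _ = f * x * f * (z * z) := by simp only [mul_assoc]
          _ = f * x * f * z := by rw [hzz]
      rw [e1]
      calc f * x * f * z * y * (f * z) = f * x * f * (z * (y * f)) * z := by
            simp only [mul_assoc]
        _ = f * x * f * ((y * f) * z) * z := by rw [hzc (y * f) (mulN y hy f hf)]
        _ = f * x * f * y * f * (z * z) := by simp only [mul_assoc]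
        _ = f * x * f * y * f * z := by rw [hzz]
    rw [key x hx y hy, key y hy x hx, hab x hx y hy]
  obtain ⟨ω, ω1, ωm, ωc⟩ := hC H S hF.star (f * z) hfN hfzp hfz habz
  have zeroN : (0 : H →L[ℂ] H) ∈ S.centralizer := Set.zero_mem_centralizer
  have ω0 : ω 0 = 0 := by
    have := (ωm 0 zeroN 0 zeroN).1
    rw [add_zero] at this
    simpa using this
  have ωf' : ω (f * z) = 1 := by
    have := (ωm 1 oneN 1 oneN).2
    rw [one_mul, mul_one, ω1, mul_one] at this
    exact this
  have ωf : ω f = 1 := by
    have h1 := (ωm f hf 1 oneN).2
    rw [mul_one, ω1, mul_one, ← mul_assoc, hff, ωf'] at h1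
    exact h1.symm
  have ωz : ∀ a ∈ S.centralizer, ω (a * z) = ω a := by
    intro a ha
    have h1 := (ωm (a * z) (mulN a ha z hzN) 1 oneN).2
    have h2 := (ωm a ha 1 oneN).2
    rw [mul_one, ω1, mul_one] at h1 h2
    rw [← h1, ← h2]
    congr 1
    calc a * z * (f * z) = a * (z * f) * z := by simp only [mul_assoc]
      _ = a * (f * z) * z := by rw [hzf]
      _ = a * (f * (z * z)) := by simp only [mul_assoc]
      _ = a * (f * z) := by rw [hzz]
  have ωsum : ∀ (s : Finset (Fin r)) (g : Fin r → (H →L[ℂ] H)), (∀ i, g i ∈ S.centralizer) →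
      (∑ i ∈ s, g i) ∈ S.centralizer ∧ ω (∑ i ∈ s, g i) = ∑ i ∈ s, ω (g i) := by
    intro s g hg
    induction s using Finset.induction_on with
    | empty => simp only [Finset.sum_empty]; exact ⟨zeroN, ω0⟩
    | insert a s ha ih =>
      rw [Finset.sum_insert ha, Finset.sum_insert ha]
      exact ⟨Set.add_mem_centralizer (hg a) ih.1, by rw [(ωm _ (hg a) _ ih.1).1, ih.2]⟩
  have vf : ∀ m, v m * f = v m := by
    intro m
    have h1 : star (v m * f - v m) * (v m * f - v m) = 0 := by
      have e : star (v m) * v m = f := by
        have := hvv m m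
        rwa [if_pos rfl] at this
      have : star (v m * f - v m) * (v m * f - v m) =
          f * (star (v m) * v m) * f - f * (star (v m) * v m) - (star (v m) * v m) * f +
            star (v m) * v m := by
        rw [star_sub, star_mul, hfs]
        noncomm_ring
      rw [this, e, hff, hff]
      abel
    have h2 : v m * f - v m = 0 := by
      rw [← CStarRing.star_mul_self_eq_zero_iff]
      exact h1
    exact sub_eq_zero.1 h2
  refine ⟨r, fun x => Matrix.of fun i l => ω (star (v i) * x * v l), ?_, ?_, ?_, ?_⟩
  · rcases Nat.eq_zero_or_pos r with h | h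
    · subst h
      exfalso
      apply hfz
      have : z = 0 := by
        rw [← hsum]
        simp
      rw [this, mul_zero]
    · exact h
  · ext i l
    change ω (star (v i) * 1 * v l) = (1 : Matrix (Fin r) (Fin r) ℂ) i l
    rw [mul_one, hvv i l, Matrix.one_apply]
    by_cases h : i = l
    · rw [if_pos h, if_pos h, ωf]
    · rw [if_neg h, if_neg h, ω0]
  · intro x hx y hy
    constructor
    · ext i l
      rw [Matrix.mul_apply]
      simp only [Matrix.of_apply]
      have h1 : ∀ m, ω (star (v i) * x * v m) * ω (star (v m) * y * v l) =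
          ω (star (v i) * x * v m * (f * z) * (star (v m) * y * v l)) := by
        intro m
        exact ((ωm _ (mulN _ (mulN _ (starN _ (hv i)) _ hx) _ (hv m)) _
          (mulN _ (mulN _ (starN _ (hv m)) _ hy) _ (hv l))).2).symm
      have h2 : ∀ m, star (v i) * x * v m * (f * z) * (star (v m) * y * v l) =
          star (v i) * x * (v m * star (v m)) * (y * v l) * z := by
        intro m
        calc star (v i) * x * v m * (f * z) * (star (v m) * y * v l)
            = star (v i) * x * (v m * f) * (z * (star (v m) * y * v l)) := by
              simp only [mul_assoc]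
          _ = star (v i) * x * v m * ((star (v m) * y * v l) * z) := by
              rw [vf, hzc _ (mulN _ (mulN _ (starN _ (hv m)) _ hy) _ (hv l))]
          _ = _ := by simp only [mul_assoc]
      have hmem : ∀ m, star (v i) * x * (v m * star (v m)) * (y * v l) * z ∈ S.centralizer :=
        fun m => mulN _ (mulN _ (mulN _ (mulN _ (starN _ (hv i)) _ hx) _
          (mulN _ (hv m) _ (starN _ (hv m)))) _ (mulN _ hy _ (hv l))) _ hzN
      calc ω (star (v i) * (x * y) * v l)
          = ω (star (v i) * (x * y) * v l * z) :=
            (ωz _ (mulN _ (mulN _ (starN _ (hv i)) _ (mulN _ hx _ hy)) _ (hv l))).symm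
        _ = ω (∑ m, star (v i) * x * (v m * star (v m)) * (y * v l) * z) := by
            congr 1
            rw [← Finset.sum_mul, ← Finset.sum_mul, ← Finset.mul_sum]
            have e : (y * v l) * z = z * (y * v l) := (hzc _ (mulN _ hy _ (hv l))).symm
            calc star (v i) * (x * y) * v l * z = star (v i) * x * ((y * v l) * z) := by
                  simp only [mul_assoc]
              _ = star (v i) * x * (z * (y * v l)) := by rw [e]
              _ = star (v i) * x * (((∑ m, v m * star (v m)) * z) * (y * v l)) := by
                  rw [hsum]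
              _ = star (v i) * x * (∑ m, v m * star (v m)) * (z * (y * v l)) := by
                  simp only [mul_assoc]
              _ = star (v i) * x * (∑ m, v m * star (v m)) * ((y * v l) * z) := by rw [e]
              _ = _ := by simp only [mul_assoc]
        _ = ∑ m, ω (star (v i) * x * (v m * star (v m)) * (y * v l) * z) :=
            (ωsum Finset.univ _ hmem).2
        _ = ∑ m, ω (star (v i) * x * v m) * ω (star (v m) * y * v l) := by
            apply Finset.sum_congr rfl
            intro m _
            rw [h1, h2]
    · ext i l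
      change ω (star (v i) * (x + y) * v l) = ω (star (v i) * x * v l) + ω (star (v i) * y * v l)
      rw [mul_add, add_mul]
      exact (ωm _ (mulN _ (mulN _ (starN _ (hv i)) _ hx) _ (hv l)) _
        (mulN _ (mulN _ (starN _ (hv i)) _ hy) _ (hv l))).1
  · intro c x hx
    ext i l
    change ω (star (v i) * (c • x) * v l) = c • ω (star (v i) * x * v l)
    rw [mul_smul_comm, smul_mul_assoc, smul_eq_mul]
    exact ωc c _ (mulN _ (mulN _ (starN _ (hv i)) _ hx) _ (hv l))

end RC
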